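import Pool.Agent.H400.LF.LenL

/-!
# LF, fibres over the configurations of one parity
-/

set_option autoImplicit false

namespace Pool.Agent.H400.LF

open MeasureTheory Pool.Agent.H964.LF
open scoped ENNReal

noncomputable section

variable {d n : ℕ}

/-- vertices of parity `c` -/
def cs (d n : ℕ) (c : ZMod 2) : Finset (Tor d n) := Finset.univ.filter fun v => par v = c

theorem mem_cs {c : ZMod 2} {v : Tor d n} : v ∈ cs d n c ↔ par v = c := by
  simp [cs]

theorem add_one_ne (c : ZMod 2) : c + 1 ≠ c := by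
  revert c
  decide

theorem eq_or (c b : ZMod 2) : b = c ∨ b = c + 1 := by
  revert c b
  decide

theorem add_one_one (c : ZMod 2) : c + 1 + 1 = c := by
  revert c
  decide

theorem cs_disj (c : ZMod 2) : Disjoint (cs d n (c + 1)) (cs d n c) := by
  rw [Finset.disjoint_left]
  intro v h1 h2
  rw [mem_cs] at h1 h2
  exact add_one_ne c (h1.symm.trans h2)

theorem cs_union (c : ZMod 2) : cs d n (c + 1) ∪ cs d n c = Finset.univ := by
  ext v
  simp only [Finset.mem_union, mem_cs, Finset.mem_univ, iff_true]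
  exact (eq_or c (par v)).symm

/-- weight of a vertex -/
def wt (W : Finset (Tor d n)) (v : Tor d n) (x : Tor d n → ℝ) : ℝ≥0∞ :=
  if v ∈ W then ENNReal.ofReal (Real.sqrt (Len x v)) else ENNReal.ofReal (Len x v)

/-- the product of the weights -/
def PW (c : ZMod 2) (W : Finset (Tor d n)) (x : Tor d n → ℝ) : ℝ≥0∞ :=
  ∏ v ∈ cs d n c, wt W v x

/-- the pin -/
def pin (q : Tor d n) : Set (Tor d n → ℝ) := {x | |x q| ≤ 1 / 2}

/-- the condition at `v` -/
def sv (U : Finset (Tor d n)) (a : Tor d n → Fin d × Bool) (δ : Tor d n → ℝ) (v : Tor d n) :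
    Set (Tor d n → ℝ) :=
  {ψ | (∀ b, |ψ (nb v b) - ψ v| ≤ 1) ∧ (v ∈ U → 1 - δ v ≤ |ψ (nb v (a v)) - ψ v|)}

theorem pin_meas (q : Tor d n) : MeasurableSet (pin q) :=
  measurableSet_le (measurable_pi_apply q).abs measurable_const

theorem sv_meas (U : Finset (Tor d n)) (a : Tor d n → Fin d × Bool) (δ : Tor d n → ℝ)
    (v : Tor d n) : MeasurableSet (sv U a δ v) := by
  have h1 : ∀ b, Measurable fun ψ : Tor d n → ℝ => |ψ (nb v b) - ψ v| := by
    intro b
    have h0 : Measurable fun ψ : Tor d n → ℝ => ψ (nb v b) - ψ v :=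
      (measurable_pi_apply (nb v b)).sub (measurable_pi_apply v)
    exact h0.abs
  have h2 : sv U a δ v = (⋂ b, {ψ : Tor d n → ℝ | |ψ (nb v b) - ψ v| ≤ 1}) ∩
      {ψ | v ∈ U → 1 - δ v ≤ |ψ (nb v (a v)) - ψ v|} := by
    ext ψ
    simp [sv]
  rw [h2]
  apply MeasurableSet.inter
  · exact MeasurableSet.iInter fun b => measurableSet_le (h1 b) measurable_const
  · by_cases hv : v ∈ U
    · have h3 : {ψ : Tor d n → ℝ | v ∈ U → 1 - δ v ≤ |ψ (nb v (a v)) - ψ v|} =
          {ψ | 1 - δ v ≤ |ψ (nb v (a v)) - ψ v|} := by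
        ext ψ
        simp [hv]
      rw [h3]
      exact measurableSet_le measurable_const (h1 _)
    · have h3 : {ψ : Tor d n → ℝ | v ∈ U → 1 - δ v ≤ |ψ (nb v (a v)) - ψ v|} = Set.univ := by
        ext ψ
        simp [hv]
      rw [h3]
      exact MeasurableSet.univ

theorem nb_tt (v : Tor d n) (i : Fin d) : nb v (i, true) = v + Pi.single i 1 := by
  simp [nb]

theorem nb_ff (v : Tor d n) (i : Fin d) : nb v (i, false) = v - Pi.single i 1 := by
  simp [nb]

theorem lip_iff (hpar : ∀ (v : Tor d n) (a : Fin d × Bool), par (nb v a) = par v + 1)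
    (c : ZMod 2) (ψ : Tor d n → ℝ) :
    Lip ψ ↔ ∀ v ∈ cs d n c, ∀ b, |ψ (nb v b) - ψ v| ≤ 1 := by
  constructor
  · intro h v _ b
    obtain ⟨i, b⟩ := b
    cases b with
    | true => rw [nb_tt]; exact h v i
    | false =>
      rw [nb_ff]
      have h1 := h (v - Pi.single i 1) i
      rw [sub_add_cancel] at h1
      rw [abs_sub_comm]
      exact h1
  · intro h v i
    rcases eq_or c (par v) with hv | hv
    · have h1 := h v (mem_cs.2 hv) (i, true)
      rw [nb_tt] at h1
      exact h1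
    · have h2 : par (v + Pi.single i 1) = c := by
        rw [← nb_tt, hpar, hv, add_one_one]
      have h1 := h _ (mem_cs.2 h2) (i, false)
      rw [nb_ff, add_sub_cancel_right, abs_sub_comm] at h1
      exact h1

/-- the fibre formula -/
theorem vl_fib (hpar : ∀ (v : Tor d n) (a : Fin d × Bool), par (nb v a) = par v + 1)
    (c : ZMod 2) (q : Tor d n) (hq : par q = c + 1) (U : Finset (Tor d n)) (hU : U ⊆ cs d n c)
    (a : Tor d n → Fin d × Bool) (δ : Tor d n → ℝ) :
    vl q {ψ | ∀ u ∈ U, 1 - δ u ≤ |ψ (nb u (a u)) - ψ u|} =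
      mg (cs d n (c + 1)) (fun x => (pin q).indicator (fun _ => 1) x * ∏ v ∈ cs d n c,
        ∫⁻ t, (sv U a δ v).indicator (fun _ => 1) (Function.update x v t)) 0 := by
  set g : Tor d n → (Tor d n → ℝ) → ℝ≥0∞ := fun v => (sv U a δ v).indicator (fun _ => 1) with hg
  have hgm : ∀ v, Measurable (g v) := fun v => measurable_const.indicator (sv_meas U a δ v)
  have hpm : Measurable ((pin q).indicator (fun _ => (1 : ℝ≥0∞))) :=
    measurable_const.indicator (pin_meas q)
  set f : (Tor d n → ℝ) → ℝ≥0∞ := fun ψ =>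
    (pin q).indicator (fun _ => 1) ψ * ∏ v ∈ cs d n c, g v ψ with hf
  have hprodm : Measurable fun ψ => ∏ v ∈ cs d n c, g v ψ :=
    Finset.measurable_prod _ fun v _ => hgm v
  have hfm : Measurable f := hpm.mul hprodm
  -- the indicator of the event
  set S : Set (Tor d n → ℝ) := {ψ : Tor d n → ℝ | Lip ψ ∧ |ψ q| ≤ 1 / 2 ∧
    ψ ∈ {ψ : Tor d n → ℝ | ∀ u ∈ U, 1 - δ u ≤ |ψ (nb u (a u)) - ψ u|}} with hS
  have hSeq : S = pin q ∩ ⋂ v ∈ cs d n c, sv U a δ v := by
    ext ψ
    simp only [hS, pin, sv, Set.mem_ofPred_eq, Set.mem_inter_iff, Set.mem_iInter]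
    rw [lip_iff hpar c]
    constructor
    · rintro ⟨h1, h2, h3⟩
      exact ⟨h2, fun v hv => ⟨h1 v hv, fun hvU => h3 v hvU⟩⟩
    · rintro ⟨h1, h2⟩
      exact ⟨fun v hv => (h2 v hv).1, h1, fun u hu => (h2 u (hU hu)).2 hu⟩
  have hSm : MeasurableSet S := by
    rw [hSeq]
    exact (pin_meas q).inter (Finset.measurableSet_biInter _ fun v _ => sv_meas U a δ v)
  have hSf : ∀ ψ, S.indicator (fun _ => (1 : ℝ≥0∞)) ψ = f ψ := by
    intro ψ
    by_cases h : ψ ∈ S
    · rw [Set.indicator_of_mem h]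
      rw [hSeq] at h
      have h1 : ∏ v ∈ cs d n c, g v ψ = 1 := by
        apply Finset.prod_eq_one
        intro v hv
        have h2 : ψ ∈ sv U a δ v := by
          have h3 := h.2
          simp only [Set.mem_iInter] at h3
          exact h3 v hv
        exact Set.indicator_of_mem h2 _
      show _ = (pin q).indicator (fun _ => 1) ψ * ∏ v ∈ cs d n c, g v ψ
      rw [h1, Set.indicator_of_mem h.1, mul_one]
    · rw [Set.indicator_of_notMem h]
      show _ = (pin q).indicator (fun _ => 1) ψ * ∏ v ∈ cs d n c, g v ψ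
      by_cases hp : ψ ∈ pin q
      · have h2 : ∃ v ∈ cs d n c, ψ ∉ sv U a δ v := by
          by_contra hcon
          push Not at hcon
          apply h
          rw [hSeq]
          refine ⟨hp, ?_⟩
          simp only [Set.mem_iInter]
          exact hcon
        obtain ⟨v, hv, hv2⟩ := h2
        rw [Finset.prod_eq_zero hv (Set.indicator_of_notMem hv2 _), mul_zero]
      · rw [Set.indicator_of_notMem hp, zero_mul]
  have h1 : vl q {ψ | ∀ u ∈ U, 1 - δ u ≤ |ψ (nb u (a u)) - ψ u|} = ∫⁻ ψ, f ψ := by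
    show volume S = _
    rw [← lintegral_indicator_one hSm]
    exact lintegral_congr hSf
  rw [h1, volume_pi, lintegral_eq_lmarginal_univ (0 : Tor d n → ℝ), ← cs_union c,
    lmarginal_union _ f hfm (cs_disj c)]
  unfold mg lmarginal
  apply lintegral_congr
  intro y
  show mg (cs d n c) f _ = _
  rw [hf, mg_mul (cs d n c) _ _ hprodm, mg_prod (cs d n c) g hgm]
  · intro v hv x y hxy
    have hvv : x v = y v := hxy v (Or.inr rfl)
    have hn : ∀ b, x (nb v b) = y (nb v b) := by
      intro b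
      apply hxy
      left
      rw [mem_cs, hpar, mem_cs.1 hv]
      exact add_one_ne c
    have hiff : x ∈ sv U a δ v ↔ y ∈ sv U a δ v := by
      simp only [sv, Set.mem_ofPred_eq, hvv, hn]
    show (sv U a δ v).indicator (fun _ => 1) x = (sv U a δ v).indicator (fun _ => 1) y
    by_cases h : x ∈ sv U a δ v
    · rw [Set.indicator_of_mem h, Set.indicator_of_mem (hiff.1 h)]
    · rw [Set.indicator_of_notMem h, Set.indicator_of_notMem (fun h' => h (hiff.2 h'))]
  · intro z hz
    have hqc : q ∉ cs d n c := by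
      rw [mem_cs, hq]
      exact add_one_ne c
    have h2 := hz q hqc
    have hiff : z ∈ pin q ↔
        Function.updateFinset (0 : Tor d n → ℝ) (cs d n (c + 1)) y ∈ pin q := by
      simp only [pin, Set.mem_ofPred_eq, h2]
    by_cases h : z ∈ pin q
    · rw [Set.indicator_of_mem h, Set.indicator_of_mem (hiff.1 h)]
    · rw [Set.indicator_of_notMem h, Set.indicator_of_notMem (fun h' => h (hiff.2 h'))]

/-- one fibre -/
theorem fib_one (hd : 1 ≤ d)
    (hpar : ∀ (v : Tor d n) (a : Fin d × Bool), par (nb v a) = par v + 1)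
    (U : Finset (Tor d n)) (a : Tor d n → Fin d × Bool) (δ : Tor d n → ℝ) (v : Tor d n)
    (x : Tor d n → ℝ) :
    (v ∉ U → ∫⁻ t, (sv U a δ v).indicator (fun _ => (1 : ℝ≥0∞)) (Function.update x v t) =
      ENNReal.ofReal (Len x v)) ∧
    (v ∈ U → 0 < δ v → ∫⁻ t, (sv U a δ v).indicator (fun _ => (1 : ℝ≥0∞)) (Function.update x v t) ≤
      ENNReal.ofReal (Real.sqrt (2 * δ v)) * ENNReal.ofReal (Real.sqrt (Len x v))) := by
  have := nonempty_dir hd
  have hne : ∀ b, nb v b ≠ v := by
    intro b h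
    have h1 := hpar v b
    rw [h] at h1
    exact add_one_ne _ h1.symm
  set T : Set ℝ := {t | (∀ b, |x (nb v b) - t| ≤ 1) ∧ (v ∈ U → 1 - δ v ≤ |x (nb v (a v)) - t|)}
    with hT
  have hTm : MeasurableSet T := by
    have h0 : Measurable fun t : ℝ => Function.update x v t :=
      measurable_update x (a := v)
    have h1 := (sv_meas U a δ v).preimage h0
    have h2 : T = (fun t : ℝ => Function.update x v t) ⁻¹' (sv U a δ v) := by
      ext t
      simp only [hT, sv, Set.mem_preimage, Set.mem_ofPred_eq, Function.update_self,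
        Function.update_of_ne (hne _)]
    rw [h2]
    exact h1
  have hint : ∫⁻ t, (sv U a δ v).indicator (fun _ => (1 : ℝ≥0∞)) (Function.update x v t) =
      volume T := by
    rw [← lintegral_indicator_one hTm]
    apply lintegral_congr
    intro t
    have hiff : Function.update x v t ∈ sv U a δ v ↔ t ∈ T := by
      simp only [hT, sv, Set.mem_ofPred_eq, Function.update_self, Function.update_of_ne (hne _)]
    by_cases h : t ∈ T
    · rw [Set.indicator_of_mem h, Set.indicator_of_mem (hiff.2 h)]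
      rfl
    · rw [Set.indicator_of_notMem h, Set.indicator_of_notMem (fun h' => h (hiff.1 h'))]
  rw [hint]
  constructor
  · intro hv
    have h1 : T = {t : ℝ | ∀ b, |x (nb v b) - t| ≤ 1} := by
      ext t
      simp [hT, hv]
    rw [h1]
    exact vol_fib fun b => x (nb v b)
  · intro hv hδ
    have h1 : T = {t : ℝ | (∀ b, |x (nb v b) - t| ≤ 1) ∧ 1 - δ v ≤ |x (nb v (a v)) - t|} := by
      ext t
      simp [hT, hv]
    rw [h1]
    exact vol_fib2 (fun b => x (nb v b)) (a v) (δ v) hδ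

theorem claimA0 (hd : 1 ≤ d)
    (hpar : ∀ (v : Tor d n) (a : Fin d × Bool), par (nb v a) = par v + 1)
    (c : ZMod 2) (q : Tor d n) (hq : par q = c + 1) :
    vl q Set.univ =
      mg (cs d n (c + 1)) (fun x => (pin q).indicator (fun _ => 1) x * PW c ∅ x) 0 := by
  have h1 := vl_fib hpar c q hq ∅ (Finset.empty_subset _) (fun _ => (⟨0, hd⟩, true)) (fun _ => 0)
  have h2 : {ψ : Tor d n → ℝ | ∀ u ∈ (∅ : Finset (Tor d n)),
      1 - (0 : ℝ) ≤ |ψ (nb u (⟨0, hd⟩, true)) - ψ u|} = Set.univ := by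
    ext ψ
    simp
  rw [h2] at h1
  rw [h1]
  unfold mg lmarginal
  apply lintegral_congr
  intro y
  beta_reduce
  congr 1
  unfold PW
  apply Finset.prod_congr rfl
  intro v _
  rw [(fib_one hd hpar ∅ _ _ v _).1 (Finset.notMem_empty v)]
  simp [wt]

theorem claimA (hd : 1 ≤ d)
    (hpar : ∀ (v : Tor d n) (a : Fin d × Bool), par (nb v a) = par v + 1)
    (c : ZMod 2) (q : Tor d n) (hq : par q = c + 1) (U : Finset (Tor d n)) (hU : U ⊆ cs d n c)
    (a : Tor d n → Fin d × Bool) (δ : Tor d n → ℝ) (hδ : ∀ u ∈ U, 0 < δ u) :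
    vl q {ψ | ∀ u ∈ U, 1 - δ u ≤ |ψ (nb u (a u)) - ψ u|} ≤
      (∏ u ∈ U, ENNReal.ofReal (Real.sqrt (2 * δ u))) *
      mg (cs d n (c + 1)) (fun x => (pin q).indicator (fun _ => 1) x * PW c U x) 0 := by
  rw [vl_fib hpar c q hq U hU a δ]
  have hne : (∏ u ∈ U, ENNReal.ofReal (Real.sqrt (2 * δ u))) ≠ ⊤ :=
    ENNReal.prod_ne_top fun u _ => ENNReal.ofReal_ne_top
  unfold mg lmarginal
  rw [← lintegral_const_mul' _ _ hne]
  apply lintegral_mono
  intro y
  simp only
  rw [mul_left_comm]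
  apply mul_le_mul_right
  have h3 : ∏ u ∈ U, ENNReal.ofReal (Real.sqrt (2 * δ u)) =
      ∏ v ∈ cs d n c, if v ∈ U then ENNReal.ofReal (Real.sqrt (2 * δ v)) else 1 := by
    rw [Finset.prod_ite_mem, Finset.inter_eq_right.2 hU]
  rw [h3]
  unfold PW
  rw [← Finset.prod_mul_distrib]
  apply Finset.prod_le_prod'
  intro v _
  by_cases hv : v ∈ U
  · rw [if_pos hv]
    refine ((fib_one hd hpar U a δ v _).2 hv (hδ v hv)).trans ?_
    rw [wt, if_pos hv]
  · rw [if_neg hv, one_mul, wt, if_neg hv]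
    exact ((fib_one hd hpar U a δ v _).1 hv).le

end

end Pool.Agent.H400.LF
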