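import Pool.Agent.H400.LF.Mg

/-!
# LF, the length of the allowed interval
-/

set_option autoImplicit false

namespace Pool.Agent.H400.LF

open MeasureTheory Pool.Agent.H964.LF
open scoped ENNReal

noncomputable section

section fam

variable {A : Type} [Fintype A] [Nonempty A]

theorem le_sup (f : A → ℝ) (a : A) : f a ≤ ⨆ a, f a :=
  le_ciSup (Set.finite_range f).bddAbove a

theorem inf_le (f : A → ℝ) (a : A) : (⨅ a, f a) ≤ f a :=
  ciInf_le (Set.finite_range f).bddBelow a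

theorem sup_neg (f : A → ℝ) : (⨆ a, -f a) = -⨅ a, f a := by
  apply le_antisymm
  · exact ciSup_le fun a => neg_le_neg (inf_le f a)
  · rw [neg_le]
    exact le_ciInf fun a => by
      have h : -f a ≤ ⨆ a, -f a := le_sup (fun a => -f a) a
      linarith

theorem inf_neg (f : A → ℝ) : (⨅ a, -f a) = -⨆ a, f a := by
  have h := sup_neg (fun a => -f a)
  simp only [neg_neg] at h
  linarith

theorem set_eq_Icc (f : A → ℝ) :
    {t : ℝ | ∀ b, |f b - t| ≤ 1} = Set.Icc ((⨆ b, f b) - 1) ((⨅ b, f b) + 1) := by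
  ext t
  simp only [Set.mem_ofPred_eq, Set.mem_Icc, abs_le]
  constructor
  · intro h
    constructor
    · have : (⨆ b, f b) ≤ t + 1 := ciSup_le fun b => by linarith [(h b).2]
      linarith
    · have : t - 1 ≤ ⨅ b, f b := le_ciInf fun b => by linarith [(h b).1]
      linarith
  · intro h b
    have h1 := le_sup f b
    have h2 := inf_le f b
    constructor <;> linarith [h.1, h.2]

theorem ofReal_max (r : ℝ) : ENNReal.ofReal (max 0 r) = ENNReal.ofReal r := by
  rcases le_total 0 r with h | h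
  · rw [max_eq_right h]
  · rw [max_eq_left h, ENNReal.ofReal_zero, ENNReal.ofReal_of_nonpos h]

theorem vol_fib (f : A → ℝ) :
    volume {t : ℝ | ∀ b, |f b - t| ≤ 1} =
      ENNReal.ofReal (max 0 (2 - (⨆ b, f b) + ⨅ b, f b)) := by
  rw [set_eq_Icc, Real.volume_Icc, ofReal_max]
  congr 1
  ring

theorem vol_fib2 (f : A → ℝ) (a : A) (δ : ℝ) (hδ : 0 < δ) :
    volume {t : ℝ | (∀ b, |f b - t| ≤ 1) ∧ 1 - δ ≤ |f a - t|} ≤
      ENNReal.ofReal (Real.sqrt (2 * δ)) *
        ENNReal.ofReal (Real.sqrt (max 0 (2 - (⨆ b, f b) + ⨅ b, f b))) := by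
  set L : ℝ := max 0 (2 - (⨆ b, f b) + ⨅ b, f b) with hL
  have hL0 : 0 ≤ L := le_max_left _ _
  have h1 : volume {t : ℝ | (∀ b, |f b - t| ≤ 1) ∧ 1 - δ ≤ |f a - t|} ≤ ENNReal.ofReal L := by
    rw [hL, ← vol_fib f]
    exact measure_mono fun t ht => ht.1
  have h2 : volume {t : ℝ | (∀ b, |f b - t| ≤ 1) ∧ 1 - δ ≤ |f a - t|} ≤
      ENNReal.ofReal (2 * δ) := by
    have hsub : {t : ℝ | (∀ b, |f b - t| ≤ 1) ∧ 1 - δ ≤ |f a - t|} ⊆
        Set.Icc (f a - 1) (f a - 1 + δ) ∪ Set.Icc (f a + 1 - δ) (f a + 1) := by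
      intro t ht
      have h3 := abs_le.1 (ht.1 a)
      rcases le_abs.1 ht.2 with h4 | h4
      · left
        constructor <;> linarith [h3.1, h3.2]
      · right
        constructor <;> linarith [h3.1, h3.2]
    refine (measure_mono hsub).trans ((measure_union_le _ _).trans ?_)
    rw [Real.volume_Icc, Real.volume_Icc, ← ENNReal.ofReal_add (by linarith) (by linarith)]
    apply ENNReal.ofReal_le_ofReal
    linarith
  have h3 : min L (2 * δ) ≤ Real.sqrt (2 * δ) * Real.sqrt L := by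
    rw [← Real.sqrt_mul (by linarith)]
    apply Real.le_sqrt_of_sq_le
    have h4 : 0 ≤ min L (2 * δ) := le_min hL0 (by linarith)
    have h5 : min L (2 * δ) ≤ L := min_le_left _ _
    have h6 : min L (2 * δ) ≤ 2 * δ := min_le_right _ _
    nlinarith
  rw [← ENNReal.ofReal_mul (Real.sqrt_nonneg _)]
  refine le_trans ?_ (ENNReal.ofReal_le_ofReal h3)
  rcases le_total L (2 * δ) with h | h
  · rw [min_eq_left h]; exact h1
  · rw [min_eq_right h]; exact h2

end fam

variable {d n : ℕ}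

theorem nonempty_dir (hd : 1 ≤ d) : Nonempty (Fin d × Bool) := ⟨(⟨0, hd⟩, true)⟩

theorem Len_nonneg (x : Tor d n → ℝ) (v : Tor d n) : 0 ≤ Len x v := le_max_left _ _

theorem Len_neg (hd : 1 ≤ d) (x : Tor d n → ℝ) (v : Tor d n) : Len (-x) v = Len x v := by
  have := nonempty_dir hd
  unfold Len
  have h1 : (⨆ a, (-x) (nb v a)) = -⨅ a, x (nb v a) := sup_neg fun a => x (nb v a)
  have h2 : (⨅ a, (-x) (nb v a)) = -⨆ a, x (nb v a) := inf_neg fun a => x (nb v a)
  rw [h1, h2]
  congr 1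
  ring

theorem Len_le_two (hd : 1 ≤ d) (x : Tor d n → ℝ) (v : Tor d n) : Len x v ≤ 2 := by
  have := nonempty_dir hd
  unfold Len
  apply max_le (by norm_num)
  have h1 := le_sup (fun a => x (nb v a)) (⟨0, hd⟩, true)
  have h2 := inf_le (fun a => x (nb v a)) (⟨0, hd⟩, true)
  linarith

theorem Len_logc (hd : 1 ≤ d) (x y : Tor d n → ℝ) (v : Tor d n) :
    Len x v * Len y v ≤ Len (mid x y) v ^ 2 := by
  have := nonempty_dir hd
  have h1 : (⨆ a, (mid x y) (nb v a)) ≤
      ((⨆ a, x (nb v a)) + ⨆ a, y (nb v a)) / 2 := by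
    apply ciSup_le
    intro a
    have h2 := le_sup (fun a => x (nb v a)) a
    have h3 := le_sup (fun a => y (nb v a)) a
    show (x (nb v a) + y (nb v a)) / 2 ≤ _
    linarith
  have h2 : ((⨅ a, x (nb v a)) + ⨅ a, y (nb v a)) / 2 ≤ (⨅ a, (mid x y) (nb v a)) := by
    apply le_ciInf
    intro a
    have h2 := inf_le (fun a => x (nb v a)) a
    have h3 := inf_le (fun a => y (nb v a)) a
    show _ ≤ (x (nb v a) + y (nb v a)) / 2
    linarith
  unfold Len
  set Sx := ⨆ a, x (nb v a)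
  set Ix := ⨅ a, x (nb v a)
  set Sy := ⨆ a, y (nb v a)
  set Iy := ⨅ a, y (nb v a)
  set Sm := ⨆ a, (mid x y) (nb v a)
  set Im := ⨅ a, (mid x y) (nb v a)
  rcases le_total (2 - Sx + Ix) 0 with hx | hx
  · rw [max_eq_left hx, zero_mul]
    positivity
  · rcases le_total (2 - Sy + Iy) 0 with hy | hy
    · rw [max_eq_left hy, mul_zero]
      positivity
    · rw [max_eq_right hx, max_eq_right hy]
      have h3 : ((2 - Sx + Ix) + (2 - Sy + Iy)) / 2 ≤ max 0 (2 - Sm + Im) :=
        le_trans (by linarith) (le_max_right _ _)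
      have h4 : (((2 - Sx + Ix) + (2 - Sy + Iy)) / 2) ^ 2 ≤ (max 0 (2 - Sm + Im)) ^ 2 :=
        pow_le_pow_left₀ (by linarith) h3 2
      refine le_trans ?_ h4
      nlinarith [sq_nonneg ((2 - Sx + Ix) - (2 - Sy + Iy))]

theorem Len_meas (v : Tor d n) : Measurable fun x : Tor d n → ℝ => Len x v := by
  unfold Len
  have h1 : Measurable fun x : Tor d n → ℝ => ⨆ a, x (nb v a) :=
    Measurable.iSup fun a => measurable_pi_apply _
  have h2 : Measurable fun x : Tor d n → ℝ => ⨅ a, x (nb v a) :=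
    Measurable.iInf fun a => measurable_pi_apply _
  exact measurable_const.max ((measurable_const.sub h1).add h2)

/-- a short interval has two neighbours at almost maximal distance -/
theorem Len_small (hd : 1 ≤ d) (x : Tor d n → ℝ) (v : Tor d n) (r : ℝ) (h : Len x v ≤ r) :
    ∃ a b, 2 - r ≤ |x (nb v a) - x (nb v b)| := by
  have := nonempty_dir hd
  obtain ⟨a, ha⟩ := exists_eq_ciSup_of_finite (f := fun a => x (nb v a))
  obtain ⟨b, hb⟩ := exists_eq_ciInf_of_finite (f := fun a => x (nb v a))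
  refine ⟨a, b, ?_⟩
  have h1 : 2 - (⨆ a, x (nb v a)) + ⨅ a, x (nb v a) ≤ r := (le_max_right _ _).trans h
  have ha' : x (nb v a) = ⨆ a, x (nb v a) := ha
  have hb' : x (nb v b) = ⨅ a, x (nb v a) := hb
  refine le_trans ?_ (le_abs_self _)
  rw [ha', hb']
  linarith

theorem Len_pos (hd : 1 ≤ d) (x : Tor d n → ℝ) (v : Tor d n) (h : Len x v ≠ 0)
    (a b : Fin d × Bool) : |x (nb v a) - x (nb v b)| ≤ 2 := by
  have := nonempty_dir hd
  have h0 : 0 < Len x v := lt_of_le_of_ne (Len_nonneg x v) (Ne.symm h)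
  have h1 : 0 < 2 - (⨆ a, x (nb v a)) + ⨅ a, x (nb v a) := by
    by_contra h2
    push Not at h2
    apply h
    unfold Len
    exact max_eq_left h2
  have ha1 : x (nb v a) ≤ ⨆ a, x (nb v a) := le_sup (fun a => x (nb v a)) a
  have ha2 : (⨅ a, x (nb v a)) ≤ x (nb v a) := inf_le (fun a => x (nb v a)) a
  have hb1 : x (nb v b) ≤ ⨆ a, x (nb v a) := le_sup (fun a => x (nb v a)) b
  have hb2 : (⨅ a, x (nb v a)) ≤ x (nb v b) := inf_le (fun a => x (nb v a)) b
  rw [abs_le]
  constructor <;> linarith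

end

end Pool.Agent.H400.LF
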