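import Mathlib
import Pool.Agent.H964.LF.Stm

/-!
# LF, marginals of products
-/

set_option autoImplicit false

namespace Pool.Agent.H400.LF

open MeasureTheory Pool.Agent.H964.LF
open scoped ENNReal

noncomputable section

/-- a factor which does not depend on the coordinates in `s` -/
theorem mg_mul {ι : Type} [DecidableEq ι] (s : Finset ι) (c h : (ι → ℝ) → ℝ≥0∞)
    (hh : Measurable h) (z : ι → ℝ) (hc : ∀ y, (∀ w, w ∉ s → y w = z w) → c y = c z) :
    mg s (fun y => c y * h y) z = c z * mg s h z := by
  have h1 : mg s (fun y => c y * h y) z = mg s (fun y => c z * h y) z := by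
    unfold mg lmarginal
    apply lintegral_congr
    intro y
    have h2 : c (Function.updateFinset z s y) = c z := by
      apply hc
      intro w hw
      simp [Function.updateFinset, hw]
    show c _ * h _ = c z * h _
    rw [h2]
  rw [h1]
  unfold mg lmarginal
  rw [lintegral_const_mul]
  exact hh.comp measurable_updateFinset

/-- the marginal of a product of functions of one of the coordinates in `s` each -/
theorem mg_prod {ι : Type} [DecidableEq ι] (s : Finset ι) (g : ι → (ι → ℝ) → ℝ≥0∞)
    (hg : ∀ v, Measurable (g v))
    (hind : ∀ v ∈ s, ∀ x y : ι → ℝ, (∀ w, (w ∉ s ∨ w = v) → x w = y w) → g v x = g v y)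
    (x : ι → ℝ) :
    mg s (fun y => ∏ v ∈ s, g v y) x = ∏ v ∈ s, ∫⁻ t, g v (Function.update x v t) := by
  induction s using Finset.induction_on generalizing x with
  | empty => simp [mg]
  | insert i s hi ih =>
    have hm : ∀ r : Finset ι, Measurable (fun y => ∏ v ∈ r, g v y) := fun r =>
      Finset.measurable_prod r fun v _ => hg v
    have hind' : ∀ v ∈ s, ∀ x y : ι → ℝ, (∀ w, (w ∉ s ∨ w = v) → x w = y w) → g v x = g v y := by
      intro v hv x y hxy
      apply hind v (Finset.mem_insert_of_mem hv)
      intro w hw
      apply hxy
      rcases hw with hw | hw
      · exact Or.inl fun h => hw (Finset.mem_insert_of_mem h)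
      · exact Or.inr hw
    unfold mg
    rw [lmarginal_insert _ (hm _) hi, Finset.prod_insert hi]
    have hstep : ∀ t : ℝ, mg s (fun y => ∏ v ∈ insert i s, g v y) (Function.update x i t) =
        g i (Function.update x i t) * ∏ v ∈ s, ∫⁻ r, g v (Function.update x v r) := by
      intro t
      have h1 : mg s (fun y => ∏ v ∈ insert i s, g v y) (Function.update x i t) =
          mg s (fun y => g i y * ∏ v ∈ s, g v y) (Function.update x i t) := by
        unfold mg lmarginal
        apply lintegral_congr
        intro y
        exact Finset.prod_insert hi
      rw [h1, mg_mul s (g i) (fun y => ∏ v ∈ s, g v y) (hm s) (Function.update x i t)]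
      · rw [ih hind']
        congr 1
        apply Finset.prod_congr rfl
        intro v hv
        apply lintegral_congr
        intro r
        apply hind v (Finset.mem_insert_of_mem hv)
        intro w hw
        have hvi : v ≠ i := fun h => hi (h ▸ hv)
        by_cases hwv : w = v
        · subst hwv
          simp
        · have hwi : w ≠ i := by
            intro h
            rcases hw with hw | hw
            · exact hw (h ▸ Finset.mem_insert_self i s)
            · exact hwv hw
          simp [Function.update_of_ne hwv, Function.update_of_ne hwi]
      · intro y hy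
        apply hind i (Finset.mem_insert_self i s)
        intro w hw
        apply hy
        rcases hw with hw | hw
        · exact fun h => hw (Finset.mem_insert_of_mem h)
        · rw [hw]; exact hi
    rw [lintegral_congr hstep, lintegral_mul_const]
    exact (hg i).comp (measurable_update' (a := i) |>.comp (measurable_const.prodMk measurable_id))

end

end Pool.Agent.H400.LF
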