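import Pool.Agent.H400.LF.Fibr

/-!
# LF, `S_STEEP`: steep edges at vertices of one parity
-/

set_option autoImplicit false

namespace Pool.Agent.H400.LF

open MeasureTheory Pool.Agent.H964.LF
open scoped ENNReal

noncomputable section

section nus

variable {ι : Type} [DecidableEq ι]

/-- the measure with `mg s f 0 = ∫ f` -/
def nu (s : Finset ι) : Measure (ι → ℝ) :=
  (Measure.pi fun _ : s => (volume : Measure ℝ)).map (Function.updateFinset (0 : ι → ℝ) s)

theorem mg_nu (s : Finset ι) (f : (ι → ℝ) → ℝ≥0∞) (hf : Measurable f) :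
    mg s f 0 = ∫⁻ x, f x ∂(nu s) := by
  unfold nu mg lmarginal
  rw [lintegral_map hf measurable_updateFinset]

theorem box_meas [Fintype ι] (k : ℕ) : MeasurableSet {x : ι → ℝ | ∀ v, |x v| ≤ (k : ℝ)} := by
  have h : {x : ι → ℝ | ∀ v, |x v| ≤ (k : ℝ)} = ⋂ v, {x : ι → ℝ | |x v| ≤ (k : ℝ)} := by
    ext x
    simp
  rw [h]
  refine MeasurableSet.iInter fun v => ?_
  have h0 : Measurable fun x : ι → ℝ => x v := measurable_pi_apply v
  exact measurableSet_le h0.abs measurable_const

theorem nu_box [Fintype ι] (s : Finset ι) (k : ℕ) :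
    nu s {x : ι → ℝ | ∀ v, |x v| ≤ (k : ℝ)} < ⊤ := by
  unfold nu
  rw [Measure.map_apply measurable_updateFinset (box_meas k)]
  have hsub : Function.updateFinset (0 : ι → ℝ) s ⁻¹' {x : ι → ℝ | ∀ v, |x v| ≤ (k : ℝ)} ⊆
      Set.Icc (fun _ : s => -(k : ℝ)) (fun _ : s => (k : ℝ)) := by
    intro y hy
    have h1 : ∀ i : s, |y i| ≤ (k : ℝ) := by
      intro i
      have h2 := hy i.1
      simpa [Function.updateFinset] using h2
    exact ⟨fun i => (abs_le.1 (h1 i)).1, fun i => (abs_le.1 (h1 i)).2⟩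
  refine lt_of_le_of_lt (measure_mono hsub) ?_
  exact isCompact_Icc.measure_lt_top

end nus

variable {d n : ℕ}

/-! ### the product of the weights -/

theorem wt_meas (W : Finset (Tor d n)) (v : Tor d n) : Measurable (wt W v) := by
  unfold wt
  by_cases hv : v ∈ W
  · simp only [if_pos hv]
    exact (Len_meas v).sqrt.ennreal_ofReal
  · simp only [if_neg hv]
    exact (Len_meas v).ennreal_ofReal

theorem PW_meas (c : ZMod 2) (W : Finset (Tor d n)) : Measurable (PW c W) :=
  Finset.measurable_prod _ fun v _ => wt_meas W v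

theorem wt_neg (hd : 1 ≤ d) (W : Finset (Tor d n)) (v : Tor d n) (x : Tor d n → ℝ) :
    wt W v (-x) = wt W v x := by
  unfold wt
  rw [Len_neg hd]

theorem PW_neg (hd : 1 ≤ d) (c : ZMod 2) (W : Finset (Tor d n)) (x : Tor d n → ℝ) :
    PW c W (-x) = PW c W x :=
  Finset.prod_congr rfl fun v _ => wt_neg hd W v x

theorem wt_logc (hd : 1 ≤ d) (W : Finset (Tor d n)) (v : Tor d n) (x y : Tor d n → ℝ) :
    wt W v x * wt W v y ≤ wt W v (mid x y) ^ 2 := by
  have h := Len_logc hd x y v
  unfold wt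
  by_cases hv : v ∈ W
  · simp only [if_pos hv]
    rw [← ENNReal.ofReal_mul (Real.sqrt_nonneg _), ← ENNReal.ofReal_pow (Real.sqrt_nonneg _)]
    apply ENNReal.ofReal_le_ofReal
    rw [← Real.sqrt_mul (Len_nonneg x v), Real.sq_sqrt (Len_nonneg _ v)]
    rw [← Real.sqrt_sq (Len_nonneg (mid x y) v)]
    exact Real.sqrt_le_sqrt h
  · simp only [if_neg hv]
    rw [← ENNReal.ofReal_mul (Len_nonneg x v), ← ENNReal.ofReal_pow (Len_nonneg _ v)]
    exact ENNReal.ofReal_le_ofReal h

theorem PW_logc (hd : 1 ≤ d) (c : ZMod 2) (W : Finset (Tor d n)) (x y : Tor d n → ℝ) :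
    PW c W x * PW c W y ≤ PW c W (mid x y) ^ 2 := by
  unfold PW
  rw [← Finset.prod_mul_distrib, ← Finset.prod_pow]
  exact Finset.prod_le_prod' fun v _ => wt_logc hd W v x y

theorem wt_le (hd : 1 ≤ d) (W : Finset (Tor d n)) (v : Tor d n) (x : Tor d n → ℝ) :
    wt W v x ≤ ENNReal.ofReal 2 := by
  have h := Len_le_two hd x v
  unfold wt
  by_cases hv : v ∈ W
  · simp only [if_pos hv]
    apply ENNReal.ofReal_le_ofReal
    rw [Real.sqrt_le_left (by norm_num)]
    linarith
  · simp only [if_neg hv]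
    exact ENNReal.ofReal_le_ofReal h

theorem PW_le (hd : 1 ≤ d) (c : ZMod 2) (W : Finset (Tor d n)) (x : Tor d n → ℝ) :
    PW c W x ≤ ∏ _v ∈ cs d n c, ENNReal.ofReal 2 :=
  Finset.prod_le_prod' fun v _ => wt_le hd W v x

theorem PW_erase (c : ZMod 2) (W : Finset (Tor d n)) (u : Tor d n) (hu : u ∈ cs d n c)
    (huW : u ∈ W) (x : Tor d n → ℝ) :
    PW c W x * ENNReal.ofReal (Real.sqrt (Len x u)) = PW c (W.erase u) x := by
  unfold PW
  rw [← Finset.mul_prod_erase _ _ hu, ← Finset.mul_prod_erase (cs d n c) (fun v => wt (W.erase u) v x) hu]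
  have h1 : ∏ v ∈ (cs d n c).erase u, wt W v x = ∏ v ∈ (cs d n c).erase u, wt (W.erase u) v x := by
    apply Finset.prod_congr rfl
    intro v hv
    have hvu := Finset.ne_of_mem_erase hv
    unfold wt
    by_cases hvW : v ∈ W
    · rw [if_pos hvW, if_pos (Finset.mem_erase.2 ⟨hvu, hvW⟩)]
    · rw [if_neg hvW, if_neg fun h => hvW (Finset.mem_of_mem_erase h)]
  have h2 : wt W u x * ENNReal.ofReal (Real.sqrt (Len x u)) = wt (W.erase u) u x := by
    unfold wt
    rw [if_pos huW, if_neg (Finset.notMem_erase u W), ← ENNReal.ofReal_mul (Real.sqrt_nonneg _),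
      Real.mul_self_sqrt (Len_nonneg x u)]
  rw [h1, mul_right_comm, h2]

theorem PW_ne (c : ZMod 2) (W : Finset (Tor d n)) (u : Tor d n) (hu : u ∈ cs d n c)
    (x : Tor d n → ℝ) (h : PW c W x ≠ 0) : Len x u ≠ 0 := by
  intro h0
  apply h
  unfold PW
  apply Finset.prod_eq_zero hu
  unfold wt
  by_cases hv : u ∈ W
  · rw [if_pos hv, h0, Real.sqrt_zero, ENNReal.ofReal_zero]
  · rw [if_neg hv, h0, ENNReal.ofReal_zero]

/-- the truncated pin -/
def Ak (q : Tor d n) (k : ℕ) : Set (Tor d n → ℝ) := pin q ∩ {x | ∀ v, |x v| ≤ (k : ℝ)}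

theorem Ak_meas (q : Tor d n) (k : ℕ) : MeasurableSet (Ak q k) :=
  (pin_meas q).inter (box_meas k)

theorem Ak_neg (q : Tor d n) (k : ℕ) (x : Tor d n → ℝ) : -x ∈ Ak q k ↔ x ∈ Ak q k := by
  simp [Ak, pin]

theorem Ak_mid (q : Tor d n) (k : ℕ) (x y : Tor d n → ℝ) (hx : x ∈ Ak q k) (hy : y ∈ Ak q k) :
    mid x y ∈ Ak q k := by
  have key : ∀ (a b r : ℝ), |a| ≤ r → |b| ≤ r → |(a + b) / 2| ≤ r := by
    intro a b r ha hb
    rw [abs_le] at *
    constructor <;> linarith [ha.1, ha.2, hb.1, hb.2]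
  exact ⟨key _ _ _ hx.1 hy.1, fun v => key _ _ _ (hx.2 v) (hy.2 v)⟩

/-- one vertex -/
theorem claimB (hE : S_ENDP) (hd : 1 ≤ d)
    (hpar : ∀ (v : Tor d n) (a : Fin d × Bool), par (nb v a) = par v + 1)
    (c : ZMod 2) (q : Tor d n) (k : ℕ) (W : Finset (Tor d n))
    (u : Tor d n) (hu : u ∈ cs d n c) (huW : u ∈ W) :
    ∫⁻ x in Ak q k, PW c W x ∂(nu (cs d n (c + 1))) ≤
      ENNReal.ofReal (8 * d) * ∫⁻ x in Ak q k, PW c (W.erase u) x ∂(nu (cs d n (c + 1))) := by
  have hd' : (1 : ℝ) ≤ d := by exact_mod_cast hd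
  set s := cs d n (c + 1) with hs
  set f : (Tor d n → ℝ) → ℝ≥0∞ := (Ak q k).indicator (PW c W) with hf
  have hfm : Measurable f := (PW_meas c W).indicator (Ak_meas q k)
  set f' : (Tor d n → ℝ) → ℝ≥0∞ := (Ak q k).indicator (PW c (W.erase u)) with hf'
  have hfm' : Measurable f' := (PW_meas c (W.erase u)).indicator (Ak_meas q k)
  have hT1 : ∫⁻ x in Ak q k, PW c W x ∂(nu s) = ∫⁻ x, f x ∂(nu s) :=
    (lintegral_indicator (Ak_meas q k) _).symm
  have hT2 : ∫⁻ x in Ak q k, PW c (W.erase u) x ∂(nu s) = ∫⁻ x, f' x ∂(nu s) :=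
    (lintegral_indicator (Ak_meas q k) _).symm
  rw [hT1, hT2]
  set r : ℝ := 1 / (16 * (d : ℝ) ^ 2) with hr
  have hr0 : 0 < r := by positivity
  have hr1 : r ≤ 1 := by
    rw [hr, div_le_one (by positivity)]
    nlinarith
  set D : (Fin d × Bool) × (Fin d × Bool) → Set (Tor d n → ℝ) := fun ab =>
    {x | 2 - r ≤ |x (nb u ab.1) - x (nb u ab.2)|} with hD
  have hDm : ∀ ab, MeasurableSet (D ab) := by
    intro ab
    have h0 : Measurable fun x : Tor d n → ℝ => x (nb u ab.1) - x (nb u ab.2) :=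
      (measurable_pi_apply _).sub (measurable_pi_apply _)
    exact measurableSet_le measurable_const h0.abs
  -- finiteness
  have hTfin : ∫⁻ x, f x ∂(nu s) ≠ ⊤ := by
    have h1 : ∫⁻ x, f x ∂(nu s) ≤ ∫⁻ x, ({x : Tor d n → ℝ | ∀ v, |x v| ≤ (k : ℝ)}).indicator
        (fun _ => ∏ _v ∈ cs d n c, ENNReal.ofReal 2) x ∂(nu s) := by
      apply lintegral_mono
      intro x
      by_cases hx : x ∈ Ak q k
      · rw [hf, Set.indicator_of_mem hx, Set.indicator_of_mem hx.2]
        exact PW_le hd c W x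
      · rw [hf, Set.indicator_of_notMem hx]
        exact bot_le
    refine ne_top_of_le_ne_top ?_ h1
    rw [lintegral_indicator (box_meas k), lintegral_const, Measure.restrict_apply_univ]
    exact ENNReal.mul_ne_top (ENNReal.prod_ne_top fun _ _ => ENNReal.ofReal_ne_top) (nu_box s k).ne
  -- the mass near the extreme slopes
  have hend : ∀ ab, ∫⁻ x, (D ab).indicator f x ∂(nu s) ≤
      ENNReal.ofReal (2 * r) * ∫⁻ x, f x ∂(nu s) := by
    intro ab
    by_cases hab : nb u ab.1 = nb u ab.2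
    · have h1 : ∀ x, (D ab).indicator f x = 0 := by
        intro x
        apply Set.indicator_of_notMem
        intro hx
        have h2 : 2 - r ≤ |x (nb u ab.1) - x (nb u ab.2)| := hx
        rw [hab, sub_self, abs_zero] at h2
        linarith
      rw [lintegral_congr h1, lintegral_zero]
      exact bot_le
    · rw [← mg_nu s _ (hfm.indicator (hDm ab)), ← mg_nu s f hfm]
      apply hE (Tor d n) s f (nb u ab.1) (nb u ab.2) r hfm _ _ _ _ hab _ hr0 hr1
      · intro x y
        by_cases hx : x ∈ Ak q k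
        · by_cases hy : y ∈ Ak q k
          · rw [hf, Set.indicator_of_mem hx, Set.indicator_of_mem hy,
              Set.indicator_of_mem (Ak_mid q k x y hx hy)]
            exact PW_logc hd c W x y
          · rw [hf, Set.indicator_of_notMem hy, mul_zero]
            exact bot_le
        · rw [hf, Set.indicator_of_notMem hx, zero_mul]
          exact bot_le
      · intro x
        by_cases hx : x ∈ Ak q k
        · rw [hf, Set.indicator_of_mem hx, Set.indicator_of_mem ((Ak_neg q k x).2 hx)]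
          exact PW_neg hd c W x
        · rw [hf, Set.indicator_of_notMem hx,
            Set.indicator_of_notMem fun h => hx ((Ak_neg q k x).1 h)]
      · rw [hs, mem_cs, hpar, mem_cs.1 hu]
      · rw [hs, mem_cs, hpar, mem_cs.1 hu]
      · intro x hx
        apply Len_pos hd x u
        apply PW_ne c W u hu x
        intro h0
        apply hx
        by_cases hxA : x ∈ Ak q k
        · rw [hf, Set.indicator_of_mem hxA, h0]
        · rw [hf, Set.indicator_of_notMem hxA]
  -- the pointwise bound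
  have hpt : ∀ x, f x ≤ (∑ ab, (D ab).indicator f x) + ENNReal.ofReal (4 * d) * f' x := by
    intro x
    by_cases hxA : x ∈ Ak q k
    · by_cases hL : Len x u ≤ r
      · obtain ⟨a, b, hab⟩ := Len_small hd x u r hL
        have hx : x ∈ D (a, b) := hab
        refine le_trans ?_ le_self_add
        have h1 : f x = (D (a, b)).indicator f x := (Set.indicator_of_mem hx _).symm
        rw [h1]
        exact Finset.single_le_sum (f := fun ab => (D ab).indicator f x)
          (fun _ _ => bot_le) (Finset.mem_univ (a, b))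
      · push Not at hL
        refine le_trans ?_ le_add_self
        rw [hf, hf', Set.indicator_of_mem hxA, Set.indicator_of_mem hxA, ← PW_erase c W u hu huW x]
        have h1 : (1 : ℝ≥0∞) ≤ ENNReal.ofReal (4 * d) * ENNReal.ofReal (Real.sqrt (Len x u)) := by
          rw [← ENNReal.ofReal_mul (by positivity), ENNReal.one_le_ofReal]
          have h2 : Real.sqrt r ≤ Real.sqrt (Len x u) := Real.sqrt_le_sqrt hL.le
          have h3 : Real.sqrt r = 1 / (4 * d) := by
            rw [hr]
            have h4 : (1 : ℝ) / (16 * (d : ℝ) ^ 2) = (1 / (4 * d)) ^ 2 := by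
              rw [div_pow, mul_pow]
              norm_num
            rw [h4, Real.sqrt_sq (by positivity)]
          rw [h3] at h2
          calc (1 : ℝ) = 4 * d * (1 / (4 * d)) := by field_simp
            _ ≤ 4 * d * Real.sqrt (Len x u) := mul_le_mul_of_nonneg_left h2 (by positivity)
        calc PW c W x = 1 * PW c W x := (one_mul _).symm
          _ ≤ (ENNReal.ofReal (4 * d) * ENNReal.ofReal (Real.sqrt (Len x u))) * PW c W x :=
            mul_le_mul_left h1 _
          _ = ENNReal.ofReal (4 * d) * (PW c W x * ENNReal.ofReal (Real.sqrt (Len x u))) := by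
            ring
    · have h1 : f x = 0 := Set.indicator_of_notMem hxA _
      rw [h1]
      exact bot_le
  -- integrate
  set T := ∫⁻ x, f x ∂(nu s) with hT
  set Z := ∫⁻ x, f' x ∂(nu s) with hZ
  have hmain : T ≤ T / 2 + ENNReal.ofReal (4 * d) * Z := by
    calc T ≤ ∫⁻ x, ((∑ ab, (D ab).indicator f x) + ENNReal.ofReal (4 * d) * f' x) ∂(nu s) :=
          lintegral_mono hpt
      _ = (∫⁻ x, ∑ ab, (D ab).indicator f x ∂(nu s)) +
          ∫⁻ x, ENNReal.ofReal (4 * d) * f' x ∂(nu s) :=
          lintegral_add_right _ (hfm'.const_mul _)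
      _ = (∑ ab, ∫⁻ x, (D ab).indicator f x ∂(nu s)) + ENNReal.ofReal (4 * d) * Z := by
          rw [lintegral_finsetSum _ fun ab _ => hfm.indicator (hDm ab),
            lintegral_const_mul _ hfm']
      _ ≤ (∑ _ab : (Fin d × Bool) × (Fin d × Bool), ENNReal.ofReal (2 * r) * T) +
          ENNReal.ofReal (4 * d) * Z :=
          add_le_add_left (Finset.sum_le_sum fun ab _ => hend ab) _
      _ = T / 2 + ENNReal.ofReal (4 * d) * Z := by
          congr 1
          rw [Finset.sum_const, Finset.card_univ, nsmul_eq_mul, ← mul_assoc]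
          have hcard : ((Fintype.card ((Fin d × Bool) × (Fin d × Bool)) : ℕ) : ℝ≥0∞) =
              ENNReal.ofReal (4 * (d : ℝ) ^ 2) := by
            have h1 : Fintype.card ((Fin d × Bool) × (Fin d × Bool)) = 4 * d ^ 2 := by
              simp only [Fintype.card_prod, Fintype.card_fin, Fintype.card_bool]
              ring
            rw [h1, ← ENNReal.ofReal_natCast]
            push_cast
            rfl
          rw [hcard, ← ENNReal.ofReal_mul (by positivity)]
          have h2 : 4 * (d : ℝ) ^ 2 * (2 * r) = 1 / 2 := by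
            rw [hr]
            field_simp
            norm_num
          rw [h2, ENNReal.ofReal_div_of_pos (by norm_num), ENNReal.ofReal_one]
          have h3 : ENNReal.ofReal 2 = 2 := by norm_num
          rw [h3, one_div, mul_comm, ← div_eq_mul_inv]
  have h5 : T / 2 ≤ ENNReal.ofReal (4 * d) * Z := by
    have h6 : T / 2 + T / 2 ≤ T / 2 + ENNReal.ofReal (4 * d) * Z := by
      rw [ENNReal.add_halves]
      exact hmain
    have h7 : T / 2 ≠ ⊤ := ENNReal.div_ne_top hTfin (by norm_num)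
    exact (ENNReal.add_le_add_iff_left h7).1 h6
  calc T = T / 2 + T / 2 := (ENNReal.add_halves T).symm
    _ ≤ ENNReal.ofReal (4 * d) * Z + ENNReal.ofReal (4 * d) * Z := add_le_add h5 h5
    _ = ENNReal.ofReal (8 * d) * Z := by
      rw [← add_mul, ← ENNReal.ofReal_add (by positivity) (by positivity)]
      congr 2
      ring

/-- all vertices, truncated -/
theorem claimC (hE : S_ENDP) (hd : 1 ≤ d)
    (hpar : ∀ (v : Tor d n) (a : Fin d × Bool), par (nb v a) = par v + 1)
    (c : ZMod 2) (q : Tor d n) (k : ℕ) (W : Finset (Tor d n)) (hW : W ⊆ cs d n c) :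
    ∫⁻ x in Ak q k, PW c W x ∂(nu (cs d n (c + 1))) ≤
      ENNReal.ofReal (8 * d) ^ W.card *
        ∫⁻ x in Ak q k, PW c ∅ x ∂(nu (cs d n (c + 1))) := by
  induction W using Finset.induction_on with
  | empty => simp
  | insert u W hu ih =>
    have h1 := claimB hE hd hpar c q k (insert u W) u (hW (Finset.mem_insert_self u W))
      (Finset.mem_insert_self u W)
    rw [Finset.erase_insert hu] at h1
    have h2 := ih fun v hv => hW (Finset.mem_insert_of_mem hv)
    rw [Finset.card_insert_of_notMem hu, pow_succ', mul_assoc]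
    exact h1.trans (mul_le_mul_right h2 _)

theorem claimD (hE : S_ENDP) (hd : 1 ≤ d)
    (hpar : ∀ (v : Tor d n) (a : Fin d × Bool), par (nb v a) = par v + 1)
    (c : ZMod 2) (q : Tor d n) (W : Finset (Tor d n)) (hW : W ⊆ cs d n c) :
    mg (cs d n (c + 1)) (fun x => (pin q).indicator (fun _ => 1) x * PW c W x) 0 ≤
      ENNReal.ofReal (8 * d) ^ W.card *
        mg (cs d n (c + 1)) (fun x => (pin q).indicator (fun _ => 1) x * PW c ∅ x) 0 := by
  have key : ∀ V : Finset (Tor d n),
      mg (cs d n (c + 1)) (fun x => (pin q).indicator (fun _ => 1) x * PW c V x) 0 =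
        ∫⁻ x in pin q, PW c V x ∂(nu (cs d n (c + 1))) := by
    intro V
    have hm : Measurable fun x => (pin q).indicator (fun _ => (1 : ℝ≥0∞)) x * PW c V x :=
      (measurable_const.indicator (pin_meas q)).mul (PW_meas c V)
    rw [mg_nu _ _ hm, ← lintegral_indicator (pin_meas q)]
    apply lintegral_congr
    intro x
    by_cases hx : x ∈ pin q
    · rw [Set.indicator_of_mem hx, Set.indicator_of_mem hx, one_mul]
    · rw [Set.indicator_of_notMem hx, Set.indicator_of_notMem hx, zero_mul]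
  rw [key, key]
  have hun : pin q = ⋃ k : ℕ, Ak q k := by
    ext x
    simp only [Ak, Set.mem_iUnion, Set.mem_inter_iff]
    constructor
    · intro hx
      obtain ⟨k, hk⟩ := exists_nat_ge (∑ v, |x v|)
      refine ⟨k, hx, fun v => ?_⟩
      exact (Finset.single_le_sum (f := fun v => |x v|) (fun _ _ => abs_nonneg _)
        (Finset.mem_univ v)).trans hk
    · rintro ⟨k, hx, _⟩
      exact hx
  have hdir : Directed (· ⊆ ·) (fun k : ℕ => Ak q k) := by
    apply directed_of_isDirected_le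
    intro k l hkl x hx
    refine ⟨hx.1, fun v => (hx.2 v).trans ?_⟩
    exact_mod_cast hkl
  have h1 : ∫⁻ x in pin q, PW c W x ∂(nu (cs d n (c + 1))) =
      ⨆ k : ℕ, ∫⁻ x in Ak q k, PW c W x ∂(nu (cs d n (c + 1))) := by
    rw [hun]
    exact setLIntegral_iUnion_of_directed _ hdir
  rw [h1]
  apply iSup_le
  intro k
  refine (claimC hE hd hpar c q k W hW).trans ?_
  apply mul_le_mul_right
  exact lintegral_mono_set fun x hx => hx.1

/-- the estimate with a pin of the other parity -/
theorem steep_pin (hE : S_ENDP) (hd : 1 ≤ d)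
    (hpar : ∀ (v : Tor d n) (a : Fin d × Bool), par (nb v a) = par v + 1)
    (c : ZMod 2) (q : Tor d n) (hq : par q = c + 1) (U : Finset (Tor d n)) (hU : U ⊆ cs d n c)
    (a : Tor d n → Fin d × Bool) (δ : Tor d n → ℝ) (hδ : ∀ u ∈ U, 0 < δ u) :
    vl q {ψ | ∀ u ∈ U, 1 - δ u ≤ |ψ (nb u (a u)) - ψ u|} ≤
      (∏ u ∈ U, ENNReal.ofReal (Real.sqrt (128 * (d : ℝ) ^ 2 * δ u))) * vl q Set.univ := by
  refine (claimA hd hpar c q hq U hU a δ hδ).trans ?_
  rw [claimA0 hd hpar c q hq]
  refine (mul_le_mul_right (claimD hE hd hpar c q U hU) _).trans ?_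
  rw [← mul_assoc]
  apply le_of_eq
  congr 1
  rw [← Finset.prod_const, ← Finset.prod_mul_distrib]
  apply Finset.prod_congr rfl
  intro u _
  rw [← ENNReal.ofReal_mul (Real.sqrt_nonneg _)]
  congr 1
  have h1 : 128 * (d : ℝ) ^ 2 * δ u = (8 * d) ^ 2 * (2 * δ u) := by ring
  have h2 : Real.sqrt ((8 * (d : ℝ)) ^ 2 * (2 * δ u)) = 8 * d * Real.sqrt (2 * δ u) := by
    rw [Real.sqrt_mul (by positivity), Real.sqrt_sq (by positivity)]
  rw [h1, h2, mul_comm]

/-- **STEEP** -/
theorem t_STEEP : S_PLM → S_ENDP → S_BAS → S_DEC → S_PIN → S_STEEP := by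
  intro _ hE hB _ hP d n p c U a δ hd _ hUc hδ
  have hpar := (hB d n hd).1
  have hU : U ⊆ cs d n c := fun u hu => mem_cs.2 (hUc u hu)
  -- a vertex of the other parity
  have hq : ∃ q : Tor d n, par q = c + 1 := by
    have h0 : par (0 : Tor d n) = 0 := by simp [par]
    rcases eq_or c 0 with h | h
    · refine ⟨nb 0 (⟨0, hd⟩, true), ?_⟩
      rw [hpar, h0, h]
    · exact ⟨0, h0.trans h⟩
  obtain ⟨q, hq⟩ := hq
  set E : Set (Tor d n → ℝ) := {ψ | ∀ u ∈ U, 1 - δ u ≤ |ψ (nb u (a u)) - ψ u|} with hEdef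
  have hEm : MeasurableSet E := by
    have h1 : E = ⋂ u ∈ U, {ψ : Tor d n → ℝ | 1 - δ u ≤ |ψ (nb u (a u)) - ψ u|} := by
      ext ψ
      simp [hEdef]
    rw [h1]
    refine Finset.measurableSet_biInter _ fun u _ => ?_
    have h0 : Measurable fun ψ : Tor d n → ℝ => ψ (nb u (a u)) - ψ u :=
      (measurable_pi_apply _).sub (measurable_pi_apply _)
    exact measurableSet_le measurable_const h0.abs
  have hEc : ∀ ψ ∈ E, ∀ t : ℝ, (fun v => ψ v + t) ∈ E := by
    intro ψ hψ t u hu
    have h1 := hψ u hu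
    show 1 - δ u ≤ |ψ (nb u (a u)) + t - (ψ u + t)|
    rw [add_sub_add_right_eq_sub]
    exact h1
  have h1 := ((hP d n).1 E hEm hEc).1 p q
  have h2 := ((hP d n).1 Set.univ MeasurableSet.univ (fun _ _ _ => Set.mem_univ _)).1 p q
  rw [h1, h2]
  exact steep_pin hE hd hpar c q hq U hU a δ fun u hu => (hδ u hu).1

end

end Pool.Agent.H400.LF
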